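import Pool.Agent.Lib.MP_fc0680_nt.Final

set_option autoImplicit false

namespace Pool.Agent.Results.MP_fc0680_nt.AllFamilies

/-- For all `k ≥ 1` and `n_i, d_i ≥ 1` with some `d_i ≤ n_i` (no family is excluded): among the
integral forms of multidegree `d` and height at most `H` with a real and a `p`-adic zero for all
`p` (every block nonzero), the share of those with a rational zero tends to `1`. -/
theorem result :
  ∀ (k : ℕ) (n d : Fin k → ℕ), (∀ i, 1 ≤ n i) → (∀ i, 1 ≤ d i) → (∃ i, d i < n i + 1) →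
   Filter.Tendsto (fun H : ℕ =>
     ((Set.ncard {f : MvPolynomial (Σ i : Fin k, Fin (n i + 1)) ℤ |
        (∀ s ∈ f.support, ∀ i : Fin k, ∑ j : Fin (n i + 1), s ⟨i, j⟩ = d i) ∧
        (∀ s, |f.coeff s| ≤ (H : ℤ)) ∧
        (∃ x : (Σ i : Fin k, Fin (n i + 1)) → ℝ,
          (∀ i : Fin k, ∃ j : Fin (n i + 1), x ⟨i, j⟩ ≠ 0) ∧ MvPolynomial.aeval x f = 0) ∧
        (∀ p : ℕ, ∀ _ : Fact p.Prime, ∃ x : (Σ i : Fin k, Fin (n i + 1)) → Padic p,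
          (∀ i : Fin k, ∃ j : Fin (n i + 1), x ⟨i, j⟩ ≠ 0) ∧ MvPolynomial.aeval x f = 0) ∧
        (∃ x : (Σ i : Fin k, Fin (n i + 1)) → ℚ,
          (∀ i : Fin k, ∃ j : Fin (n i + 1), x ⟨i, j⟩ ≠ 0) ∧ MvPolynomial.aeval x f = 0)} : ℕ) : ℝ) /
     ((Set.ncard {f : MvPolynomial (Σ i : Fin k, Fin (n i + 1)) ℤ |
        (∀ s ∈ f.support, ∀ i : Fin k, ∑ j : Fin (n i + 1), s ⟨i, j⟩ = d i) ∧
        (∀ s, |f.coeff s| ≤ (H : ℤ)) ∧
        (∃ x : (Σ i : Fin k, Fin (n i + 1)) → ℝ,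
          (∀ i : Fin k, ∃ j : Fin (n i + 1), x ⟨i, j⟩ ≠ 0) ∧ MvPolynomial.aeval x f = 0) ∧
        (∀ p : ℕ, ∀ _ : Fact p.Prime, ∃ x : (Σ i : Fin k, Fin (n i + 1)) → Padic p,
          (∀ i : Fin k, ∃ j : Fin (n i + 1), x ⟨i, j⟩ ≠ 0) ∧ MvPolynomial.aeval x f = 0)} : ℕ) : ℝ))
     Filter.atTop (nhds 1) := by
  intro k n d hn hd hex
  refine (Pool.Agent.HP.main_all n d hn hd hex).congr fun H => ?_
  rw [Pool.Agent.HP.ncard_glob n d H, Pool.Agent.HP.ncard_loc n d H]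

end Pool.Agent.Results.MP_fc0680_nt.AllFamilies
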